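import Pool.Agent.N658.TP.Stm2
import Pool.Agent.H726R2.RD.GT

/-! # TP/GT: Golden–Thompson for Hermitian matrices -/

open scoped BigOperators ComplexConjugate Classical InnerProductSpace Matrix ComplexOrder
open scoped Matrix.Norms.L2Operator

noncomputable section

namespace Pool.Agent.N776.TP

open Pool.Agent.N658.TP

variable {n : Type} [Fintype n] [DecidableEq n]

/-- the endomorphism of a matrix -/
def en (X : Matrix n n ℂ) : Module.End ℂ (EuclideanSpace ℂ n) :=
  ((Matrix.toEuclideanCLM (n := n) (𝕜 := ℂ) X : EuclideanSpace ℂ n →L[ℂ] EuclideanSpace ℂ n) :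
    EuclideanSpace ℂ n →ₗ[ℂ] EuclideanSpace ℂ n)

theorem en_add (X Y : Matrix n n ℂ) : en (X + Y) = en X + en Y := by
  unfold en
  rw [map_add]
  rfl

theorem en_mul (X Y : Matrix n n ℂ) : en (X * Y) = en X * en Y := by
  unfold en
  rw [map_mul]
  rfl

theorem trace_en (X : Matrix n n ℂ) :
    LinearMap.trace ℂ (EuclideanSpace ℂ n) (en X) = X.trace := by
  have h := Matrix.trace_toLin_eq X (EuclideanSpace.basisFun n ℂ).toBasis
  rw [← h]
  congr 1

theorem en_symm (X : Matrix n n ℂ) (hX : X.IsHermitian) : (en X).IsSymmetric := by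
  have := Matrix.isSymmetric_toEuclideanLin_iff.2 hX
  exact this

theorem ex_en (X : Matrix n n ℂ) : RC14.ex (en X) = en (NormedSpace.exp X) := by
  have hc : Continuous (Matrix.toEuclideanCLM (n := n) (𝕜 := ℂ)) := by
    exact LinearMap.continuous_of_finiteDimensional
      (Matrix.toEuclideanCLM (n := n) (𝕜 := ℂ)).toAlgEquiv.toLinearMap
  let _ : NormedAlgebra ℚ (Matrix n n ℂ) := NormedAlgebra.restrictScalars ℚ ℂ _
  have h := NormedSpace.map_exp (Matrix.toEuclideanCLM (n := n) (𝕜 := ℂ)) hc X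
  unfold RC14.ex en
  rw [h]
  rfl

theorem gt : StmGT := by
  intro n _ _ X Y hX hY
  have h := RC14.GT (en X) (en Y) (en_symm X hX) (en_symm Y hY)
  rw [← en_add, ex_en, ex_en, ex_en, ← en_mul] at h
  unfold RC14.rtr at h
  rwa [trace_en, trace_en] at h

end Pool.Agent.N776.TP
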